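import Pool.Agent.Helper41.PS.Goals

/-!
# Project PS (MP_74f661_nt), packet GD: pairs of tuples are strings or longer tuples
-/

set_option autoImplicit false

open Finset

open scoped Classical

namespace Pool.Agent.Helper10.PS.GD

open Pool.Agent.Helper41.PS

/-- the pairs `(D, n)` which are counted in `SS` -/
noncomputable def PP (m q x L a h : ℕ) : Finset (Finset ℕ × ℕ) :=
  (DD m L ×ˢ Icc 1 x).filter (fun z => PD q a z.1 z.2 ∧ PD q a z.1 (z.2 + h))

theorem SS_eq (m q x L a h : ℕ) : SS m q x L a h = ((PP m q x L a h).card : ℝ) := by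
  unfold SS PP
  rw [Finset.card_filter]
  push_cast
  rw [Finset.sum_product]
  refine Finset.sum_congr rfl fun D _ => Finset.sum_congr rfl fun n _ => ?_
  unfold ff
  by_cases h1 : PD q a D n <;> by_cases h2 : PD q a D (n + h) <;> simp [h1, h2]

/-- all `t ∈ [n, n + L]` in `T h` are of the form `n + d`, `d ∈ D ∪ {0}` -/
def Full (L h : ℕ) (z : Finset ℕ × ℕ) : Prop :=
  ∀ t ∈ Icc z.2 (z.2 + L), T h t → t - z.2 ∈ insert 0 z.1

theorem mem_DD {m L : ℕ} {D : Finset ℕ} : D ∈ DD m L ↔ D ⊆ Icc 1 L ∧ D.card = m := by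
  unfold DD
  exact mem_powersetCard

theorem T_of {q a h n d : ℕ} {D : Finset ℕ} (h1 : PD q a D n) (h2 : PD q a D (n + h))
    (hd : d ∈ insert 0 D) : T h (n + d) := by
  refine ⟨(h1 d hd).1, ?_⟩
  have := (h2 d hd).1
  rwa [show n + d + h = n + h + d by ring]

theorem card_full (m q x L a h : ℕ) (R : ℝ) (hR : (L : ℝ) ≤ R) :
    (((PP m q x L a h).filter (fun z => Full L h z)).card : ℝ) ≤ NS m q R a h x := by
  unfold NS
  have : ((PP m q x L a h).filter (fun z => Full L h z)).card ≤
      ((Icc 1 x).filter (fun n => Str m q R a h n)).card := by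
    refine Finset.card_le_card_of_injOn (fun z => z.2) ?_ ?_
    · intro z hz
      obtain ⟨hz1, hz2⟩ := mem_filter.1 hz
      obtain ⟨hz3, h1, h2⟩ := mem_filter.1 hz1
      obtain ⟨hD, hn⟩ := mem_product.1 hz3
      obtain ⟨hDs, hDc⟩ := mem_DD.1 hD
      refine Finset.mem_coe.2 ?_
      change z.2 ∈ (Icc 1 x).filter (fun n => Str m q R a h n)
      refine mem_filter.2 ⟨hn, ?_, z.2 + L, ?_, ?_, ?_⟩
      · have := T_of h1 h2 (mem_insert_self 0 z.1)
        simpa using this
      · push_cast
        linarith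
      · intro t ht hT
        have hd := hz2 t ht hT
        have e : z.2 + (t - z.2) = t := by
          have := (mem_Icc.1 ht).1
          omega
        have := (h1 _ hd).2
        rwa [e] at this
      · have hc : (insert 0 z.1).card = m + 1 := by
          rw [card_insert_of_notMem, hDc]
          intro h0
          have := (mem_Icc.1 (hDs h0)).1
          omega
        rw [← hc, ← Finset.card_image_of_injective (insert 0 z.1) (add_right_injective z.2)]
        refine Finset.card_le_card ?_
        intro t ht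
        obtain ⟨d, hd, rfl⟩ := mem_image.1 ht
        refine mem_filter.2 ⟨mem_Icc.2 ⟨by simp, ?_⟩, T_of h1 h2 hd⟩
        rcases mem_insert.1 hd with h0 | h0
        · rw [h0]
          simp
        · have := (mem_Icc.1 (hDs h0)).2
          omega
    · intro z hz w hw he
      simp only at he
      have key : ∀ z : Finset ℕ × ℕ, z ∈ (PP m q x L a h).filter (fun z => Full L h z) →
          z.1 = (Icc 1 L).filter (fun j => T h (z.2 + j)) := by
        intro z hz
        obtain ⟨hz1, hz2⟩ := mem_filter.1 hz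
        obtain ⟨hz3, h1, h2⟩ := mem_filter.1 hz1
        obtain ⟨hD, hn⟩ := mem_product.1 hz3
        obtain ⟨hDs, hDc⟩ := mem_DD.1 hD
        ext j
        constructor
        · intro hj
          exact mem_filter.2 ⟨hDs hj, T_of h1 h2 (mem_insert_of_mem hj)⟩
        · intro hj
          obtain ⟨hj1, hj2⟩ := mem_filter.1 hj
          have hj3 := mem_Icc.1 hj1
          have := hz2 (z.2 + j) (mem_Icc.2 ⟨by omega, by omega⟩) hj2
          rw [show z.2 + j - z.2 = j by omega] at this
          rcases mem_insert.1 this with h0 | h0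
          · omega
          · exact h0
      have e1 : z.1 = w.1 := by
        rw [key z hz, key w hw, he]
      exact Prod.ext e1 he
  exact_mod_cast this

/-- the triples of the second case -/
noncomputable def QQ (m x L h : ℕ) : Finset (Σ _ : Finset ℕ, ℕ × ℕ) :=
  ((DD (m + 1) L).filter (fun D => ND D h)).sigma
    (fun D => ((Icc 1 x).filter (fun n => ∀ e ∈ EE D h, (n + e).Prime)) ×ˢ D)

theorem card_QQ (m x L h : ℕ) : ((QQ m x L h).card : ℝ) = ((m : ℝ) + 1) * UU (m + 1) x L h := by
  unfold QQ UU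
  rw [Finset.card_sigma]
  push_cast
  rw [Finset.mul_sum]
  refine Finset.sum_congr rfl fun D hD => ?_
  obtain ⟨h1, -⟩ := mem_filter.1 hD
  obtain ⟨-, h2⟩ := mem_DD.1 h1
  rw [card_product, h2]
  unfold NN
  push_cast
  ring

theorem nd {L h : ℕ} (hL : L < h) {D : Finset ℕ} (hD : D ⊆ Icc 1 L) : ND D h := by
  unfold ND
  have hle : ∀ d ∈ insert 0 D, d ≤ L := by
    intro d hd
    rcases mem_insert.1 hd with h0 | h0
    · omega
    · exact (mem_Icc.1 (hD h0)).2
  rw [Finset.disjoint_left]
  intro d hd hd'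
  obtain ⟨e, he, rfl⟩ := mem_image.1 hd'
  have := hle _ hd
  omega

/-- a further element -/
theorem exists_j {m q x L a h : ℕ} {z : Finset ℕ × ℕ} (_ : z ∈ PP m q x L a h)
    (hz : ¬ Full L h z) : ∃ j ∈ Icc 1 L, j ∉ z.1 ∧ T h (z.2 + j) := by
  unfold Full at hz
  push Not at hz
  obtain ⟨t, ht, hT, hn⟩ := hz
  have ht' := mem_Icc.1 ht
  rw [mem_insert, not_or] at hn
  refine ⟨t - z.2, mem_Icc.2 ⟨by omega, by omega⟩, hn.2, ?_⟩
  rwa [show z.2 + (t - z.2) = t by omega]

theorem card_notfull (m q x L a h : ℕ) (hL : L < h) :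
    (((PP m q x L a h).filter (fun z => ¬ Full L h z)).card : ℝ) ≤
      ((m : ℝ) + 1) * UU (m + 1) x L h := by
  rw [← card_QQ]
  have hex : ∀ z : Finset ℕ × ℕ, ∃ j : ℕ, z ∈ PP m q x L a h → ¬ Full L h z →
      j ∈ Icc 1 L ∧ j ∉ z.1 ∧ T h (z.2 + j) := by
    intro z
    by_cases h1 : z ∈ PP m q x L a h
    · by_cases h2 : Full L h z
      · exact ⟨0, fun _ h => absurd h2 h⟩
      · obtain ⟨j, hj⟩ := exists_j h1 h2
        exact ⟨j, fun _ _ => hj⟩
    · exact ⟨0, fun h => absurd h h1⟩
  choose J hJ using hex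
  have : ((PP m q x L a h).filter (fun z => ¬ Full L h z)).card ≤ (QQ m x L h).card := by
    refine Finset.card_le_card_of_injOn
      (fun z => (⟨insert (J z) z.1, (z.2, J z)⟩ : Σ _ : Finset ℕ, ℕ × ℕ)) ?_ ?_
    · intro z hz
      obtain ⟨hz1, hz2⟩ := mem_filter.1 hz
      obtain ⟨j1, j2, j3⟩ := hJ z hz1 hz2
      obtain ⟨hz3, h1, h2⟩ := mem_filter.1 hz1
      obtain ⟨hD, hn⟩ := mem_product.1 hz3
      obtain ⟨hDs, hDc⟩ := mem_DD.1 hD
      have hsub : insert (J z) z.1 ⊆ Icc 1 L := insert_subset j1 hDs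
      have hTd : ∀ d ∈ insert 0 (insert (J z) z.1), T h (z.2 + d) := by
        intro d hd
        rcases mem_insert.1 hd with h0 | h0
        · rw [h0]
          exact T_of h1 h2 (mem_insert_self 0 z.1)
        · rcases mem_insert.1 h0 with h3 | h3
          · rw [h3]
            exact j3
          · exact T_of h1 h2 (mem_insert_of_mem h3)
      refine mem_sigma.2 ⟨mem_filter.2 ⟨mem_DD.2 ⟨hsub, ?_⟩, nd hL hsub⟩,
        mem_product.2 ⟨mem_filter.2 ⟨hn, ?_⟩, mem_insert_self _ _⟩⟩
      · rw [card_insert_of_notMem j2, hDc]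
      · intro e he
        unfold EE at he
        rcases mem_union.1 he with h3 | h3
        · exact (hTd e h3).1
        · obtain ⟨d, hd, rfl⟩ := mem_image.1 h3
          have := (hTd d hd).2
          simp only
          rwa [show z.2 + (d + h) = z.2 + d + h by ring]
    · intro z hz w hw he
      obtain ⟨hz1, hz2⟩ := mem_filter.1 hz
      obtain ⟨-, j2, -⟩ := hJ z hz1 hz2
      obtain ⟨hw1, hw2⟩ := mem_filter.1 hw
      obtain ⟨-, k2, -⟩ := hJ w hw1 hw2
      simp only [Sigma.mk.injEq, heq_eq_eq, Prod.mk.injEq] at he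
      obtain ⟨e1, e2, e3⟩ := he
      have e4 : z.1 = w.1 := by
        rw [← erase_insert j2, ← erase_insert k2, e1, e3]
      exact Prod.ext e4 e2
  exact_mod_cast this

theorem t : StmtGD := by
  intro m q x L a h R hL hR
  rw [SS_eq, ← Finset.card_filter_add_card_filter_not (s := PP m q x L a h) (fun z => Full L h z)]
  push_cast
  exact add_le_add (card_full m q x L a h R hR) (card_notfull m q x L a h hL)

end Pool.Agent.Helper10.PS.GD
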